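import Pool.Agent.Lead.Med.D0
import Pool.Agent.Lead.Med.D1
import Pool.Agent.Lead.Med.D2
import Pool.Agent.Lead.Med.D3
import Pool.Agent.Lead.Med.D4

set_option autoImplicit false

namespace Pool.Agent.Results.MP_18a4fa_co.LongGame

open Pool.Agent.Lead.Med

/-- the guards can pass from configuration `C` to configuration `D` in one turn: every guard
stays or crosses one edge, and no two guards end on the same vertex -/
def Move {V : Type} [DecidableEq V] (G : SimpleGraph V) (C D : Finset V) : Prop :=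
  ∃ f : V → V, Set.InjOn f C ∧ C.image f = D ∧ ∀ v ∈ C, f v = v ∨ G.Adj v (f v)

/-- starting from `C` the defender can answer the first `k` attacks, whatever the attacker does -/
def Survives {V : Type} [DecidableEq V] (G : SimpleGraph V) : ℕ → Finset V → Prop
  | 0, _ => True
  | k + 1, C => ∀ a : V, ∃ D, Move G C D ∧ a ∈ D ∧ Survives G k D

/-- `C` is an m-eternal dominating set: it lies in a family of configurations inside which
every attack can be answered -/
def Eternal {V : Type} [DecidableEq V] (G : SimpleGraph V) (C : Finset V) : Prop :=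
  ∃ F : Set (Finset V), C ∈ F ∧ ∀ D ∈ F, ∀ a : V, ∃ D' ∈ F, Move G D D' ∧ a ∈ D'

/-- the m-eternal domination number -/
noncomputable def gammaInf {V : Type} [DecidableEq V] (G : SimpleGraph V) : ℕ :=
  sInf {k | ∃ C : Finset V, Eternal G C ∧ C.card = k}

lemma nb_refl (i : Fin 60) : nb i i = true := (an_iff.mp (allB_sound basic i i.2)).1

lemma nb_symm {i j : Fin 60} (h : nb i j = true) : nb j i = true :=
  im_iff.mp (allB_sound (an_iff.mp (allB_sound basic i i.2)).2 j j.2) h

/-- the graph -/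
def G : SimpleGraph (Fin 60) where
  Adj i j := i ≠ j ∧ nb i j = true
  symm := ⟨fun _ _ h => ⟨h.1.symm, nb_symm h.2⟩⟩
  loopless := ⟨fun _ h => h.1 rfl⟩

lemma step_iff {v w : Fin 60} : (w = v ∨ G.Adj v w) ↔ nb v w = true := by
  constructor
  · rintro (rfl | h)
    · exact nb_refl _
    · exact h.2
  · intro h
    by_cases e : w = v
    · exact Or.inl e
    · exact Or.inr ⟨fun h => e h.symm, h⟩

/-- vertex number `i` -/
def V (i : ℕ) : Fin 60 := ⟨i % 60, Nat.mod_lt _ (by norm_num)⟩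

lemma V_val {i : ℕ} (h : i < 60) : (V i : ℕ) = i := Nat.mod_eq_of_lt h

lemma V_ne {i j : ℕ} (hi : i < 60) (hj : j < 60) (h : i ≠ j) : V i ≠ V j := fun e =>
  h (by rw [← V_val hi, ← V_val hj, e])

lemma card4 {a b c d : Fin 60} (h1 : a ≠ b) (h2 : a ≠ c) (h3 : a ≠ d) (h4 : b ≠ c) (h5 : b ≠ d)
    (h6 : c ≠ d) : ({a, b, c, d} : Finset (Fin 60)).card = 4 := by
  rw [Finset.card_insert_of_notMem (by simp [*]), Finset.card_insert_of_notMem (by simp [*]),
    Finset.card_pair h6]

lemma mv {a b c d t0 t1 t2 t3 : ℕ} {T : Finset (Fin 60)} (ha : a < 60) (hb : b < 60) (hc : c < 60)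
    (hd : d < 60) (h1 : a ≠ b) (h2 : a ≠ c) (h3 : a ≠ d) (h4 : b ≠ c) (h5 : b ≠ d) (h6 : c ≠ d)
    (k0 : t0 < 60) (k1 : t1 < 60) (k2 : t2 < 60) (k3 : t3 < 60) (hT : T.card = 4)
    (h : m4 a b c d t0 t1 t2 t3 = true) (hT' : T = {V t0, V t1, V t2, V t3}) :
    Move G {V a, V b, V c, V d} T := by
  have e1 := V_ne ha hb h1
  have e2 := V_ne ha hc h2
  have e3 := V_ne ha hd h3
  have e4 := V_ne hb hc h4
  have e5 := V_ne hb hd h5
  have e6 := V_ne hc hd h6
  simp only [m4, an_iff] at h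
  let f : Fin 60 → Fin 60 := fun v =>
    if v = V a then V t0 else if v = V b then V t1 else if v = V c then V t2 else V t3
  have fa : f (V a) = V t0 := by simp [f]
  have fb : f (V b) = V t1 := by simp [f, e1.symm]
  have fc : f (V c) = V t2 := by simp [f, e2.symm, e4.symm]
  have fd : f (V d) = V t3 := by simp [f, e3.symm, e5.symm, e6.symm]
  have him : ({V a, V b, V c, V d} : Finset (Fin 60)).image f = T := by
    rw [hT']; simp only [Finset.image_insert, Finset.image_singleton, fa, fb, fc, fd]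
  refine ⟨f, Finset.injOn_of_card_image_eq (by rw [him, hT, card4 e1 e2 e3 e4 e5 e6]), him, ?_⟩
  intro v hv
  simp only [Finset.mem_insert, Finset.mem_singleton] at hv
  rcases hv with rfl | rfl | rfl | rfl <;> rw [step_iff]
  · rw [fa, V_val ha, V_val k0]; exact h.1
  · rw [fb, V_val hb, V_val k1]; exact h.2.1
  · rw [fc, V_val hc, V_val k2]; exact h.2.2.1
  · rw [fd, V_val hd, V_val k3]; exact h.2.2.2

/-- the configuration with roaming guard `y % 60` and counter `k` -/
noncomputable def cfg (y k : ℕ) : Finset (Fin 60) := {V (y % 60), V 39, V (pA y k), V (pB y k)}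

lemma pA_lt (y k : ℕ) : pA y k < 18 := Nat.mod_lt _ (by norm_num)

lemma pB_bd (y k : ℕ) : 18 ≤ pB y k ∧ pB y k < 39 :=
  ⟨Nat.le_add_right _ _, Nat.add_lt_add_left (Nat.mod_lt _ (by norm_num : 0 < 21)) 18⟩

lemma dist' {y k : ℕ} (hy : y < 120) (hk : k < 126) (h : ok y k = true) :
    y % 60 ≠ 39 ∧ y % 60 ≠ pA y k ∧ y % 60 ≠ pB y k := by
  have := im_iff.mp (allB_sound (allB_sound dist y hy) k hk) h
  simp only [an_iff, Bool.not_eq_true', ← Bool.not_eq_true, Nat.beq_eq] at this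
  exact this

lemma chk_all (y : ℕ) (hy : y < 120) : chk y = true := by
  have key : ∀ lo n, chkR lo n = true → lo ≤ y → y < lo + n → chk y = true := by
    intro lo n h h1 h2
    have := allB_sound h (y - lo) (by omega)
    rw [force_eq] at this
    rwa [show Nat.add lo (y - lo) = y from Nat.add_sub_cancel' h1] at this
  by_cases h : 50 ≤ y
  · exact key _ _ c50 h hy
  by_cases h : 40 ≤ y
  · exact key _ _ c40 h (by omega)
  have : y / 2 < 20 := by omega
  obtain ⟨m, hm⟩ : ∃ m, m = y / 2 := ⟨_, rfl⟩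
  rw [← hm] at this
  interval_cases m
  exacts [key _ _ c0 (by omega) (by omega), key _ _ c2 (by omega) (by omega),
    key _ _ c4 (by omega) (by omega), key _ _ c6 (by omega) (by omega),
    key _ _ c8 (by omega) (by omega), key _ _ c10 (by omega) (by omega),
    key _ _ c12 (by omega) (by omega), key _ _ c14 (by omega) (by omega),
    key _ _ c16 (by omega) (by omega), key _ _ c18 (by omega) (by omega),
    key _ _ c20 (by omega) (by omega), key _ _ c22 (by omega) (by omega),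
    key _ _ c24 (by omega) (by omega), key _ _ c26 (by omega) (by omega),
    key _ _ c28 (by omega) (by omega), key _ _ c30 (by omega) (by omega),
    key _ _ c32 (by omega) (by omega), key _ _ c34 (by omega) (by omega),
    key _ _ c36 (by omega) (by omega), key _ _ c38 (by omega) (by omega)]

lemma resp_move {y k z k' : ℕ} (hy : y < 120) (hk : k < 126) (hz : z < 120) (hk' : k' < 126)
    (h : ok y k = true) (hr : resp (y % 60) (pA y k) (pB y k) (z % 60) z k' = true) :
    ok z k' = true ∧ Move G (cfg y k) (cfg z k') := by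
  simp only [resp, an_iff, force_eq] at hr
  refine ⟨hr.1, ?_⟩
  obtain ⟨d1, d2, d3⟩ := dist' hy hk h
  obtain ⟨e1, e2, e3⟩ := dist' hz hk' hr.1
  have a1 := pA_lt y k
  have a2 := pB_bd y k
  have a3 := pA_lt z k'
  have a4 := pB_bd z k'
  have a5 : y % 60 < 60 := Nat.mod_lt _ (by norm_num)
  have a6 : z % 60 < 60 := Nat.mod_lt _ (by norm_num)
  have hT : (cfg z k').card = 4 := by
    apply card4 <;> apply V_ne <;> omega
  have hp := hr.2
  unfold cfg at hT ⊢
  generalize pA y k = A at *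
  generalize pB y k = B at *
  generalize pA z k' = A' at *
  generalize pB z k' = B' at *
  generalize y % 60 = x at *
  generalize z % 60 = a at *
  simp only [pat, orr_iff] at hp
  rcases hp with h | h | h | h | h | h | h | h | h | h <;>
    refine mv a5 (by omega) (by omega) (by omega) d1 d2 d3 (by omega) (by omega) (by omega)
      (by omega) (by omega) (by omega) (by omega) hT h ?_ <;>
    · ext v; simp only [Finset.mem_insert, Finset.mem_singleton, or_comm, or_left_comm, or_assoc]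

lemma move_refl (C : Finset (Fin 60)) : Move G C C :=
  ⟨id, Set.injOn_id _, Finset.image_id, fun _ _ => Or.inl rfl⟩

lemma surv : ∀ m y k : ℕ, y < 120 → m + 1 ≤ k → k + m ≤ 125 → ok y k = true →
    Survives G m (cfg y k)
  | 0, _, _, _, _, _, _ => trivial
  | m + 1, y, k, hy, h1, h2, h => by
    intro a
    obtain ⟨k, rfl⟩ : ∃ j, k = j + 2 := ⟨k - 2, by omega⟩
    have hc := chk_all y hy
    rw [chk, force_eq] at hc
    have hc := im_iff.mp (allB_sound hc k (by omega)) h
    simp only [force_eq] at hc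
    have hc := allB_sound hc a a.2
    have hV : V a = a := Fin.ext (V_val a.2)
    have stay : a ∈ cfg y (k + 2) → ∃ D, Move G (cfg y (k + 2)) D ∧ a ∈ D ∧ Survives G m D :=
      fun ha => ⟨_, move_refl _, ha, surv m y _ hy (by omega) (by omega) h⟩
    have go : ∀ z k' : ℕ, z < 120 → z % 60 = (a : ℕ) → k + 1 ≤ k' → k' ≤ k + 3 →
        resp (y % 60) (pA y (k + 2)) (pB y (k + 2)) a z k' = true →
        ∃ D, Move G (cfg y (k + 2)) D ∧ a ∈ D ∧ Survives G m D := by
      intro z k' hz hza b1 b2 hr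
      rw [← hza] at hr
      obtain ⟨o, mo⟩ := resp_move hy (by omega) hz (by omega) h hr
      refine ⟨_, mo, ?_, surv m z k' hz (by omega) (by omega) o⟩
      rw [cfg, hza, hV]; simp
    have ha := a.2
    simp only [orr_iff, Nat.beq_eq, resp3] at hc
    rcases hc with e | e | e | e | (e | e | e) | (e | e | e)
    · exact stay (by rw [← hV, e, cfg]; exact Finset.mem_insert_self _ _)
    · exact stay (by rw [← hV, e, cfg]; simp)
    · have e' : (a : ℕ) = pA y (k + 2) := e
      exact stay (by rw [← hV, e', cfg]; simp)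
    · have e' : (a : ℕ) = pB y (k + 2) := e
      exact stay (by rw [← hV, e', cfg]; simp)
    · exact go a (k + 1) (by omega) (by omega) (by omega) (by omega) e
    · exact go a (k + 2) (by omega) (by omega) (by omega) (by omega) e
    · exact go a (k + 3) (by omega) (by omega) (by omega) (by omega) e
    · exact go ((a : ℕ) + 60) (k + 1) (by omega) (by omega) (by omega) (by omega) e
    · exact go ((a : ℕ) + 60) (k + 2) (by omega) (by omega) (by omega) (by omega) e
    · exact go ((a : ℕ) + 60) (k + 3) (by omega) (by omega) (by omega) (by omega) e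

lemma testBit_row (i j : ℕ) (hj : j < 60) : (row i).testBit j = nb i j := by
  have e1 : row i = (AD >>> (60 * i)) % 2 ^ 60 := rfl
  have e2 : nb i j = Nat.beq ((AD >>> (60 * i + j)) % 2) 1 := rfl
  rw [e1, e2, Nat.testBit_mod_two_pow, Nat.testBit_shiftRight, Nat.testBit_eq_decide_div_mod_eq,
    ← Nat.shiftRight_eq_div_pow, Bool.eq_iff_iff]
  simp only [hj, decide_true, Bool.true_and, decide_eq_true_eq, Nat.beq_eq]

lemma two {s : Finset (Fin 60)} (h : s.card ≤ 2) (d : Fin 60) :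
    ∃ a b, (∀ x ∈ s, x = a ∨ x = b) ∧ (a ∈ s ∨ a = d) ∧ (b ∈ s ∨ b = d) := by
  obtain h | h | h : s.card = 0 ∨ s.card = 1 ∨ s.card = 2 := by omega
  · rw [Finset.card_eq_zero] at h
    exact ⟨d, d, by simp [h], Or.inr rfl, Or.inr rfl⟩
  · obtain ⟨a, rfl⟩ := Finset.card_eq_one.mp h
    exact ⟨a, a, by simp, by simp, by simp⟩
  · obtain ⟨a, b, -, rfl⟩ := Finset.card_eq_two.mp h
    exact ⟨a, b, by simp, by simp, by simp⟩

/-- the shape of a dominating configuration after an attack on phase vertex `i` -/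
def Ph (D : Finset (Fin 60)) (i α β : ℕ) : Prop :=
  α ≤ 17 ∧ 18 ≤ β ∧ β ≤ 38 ∧ α % 3 = i ∧ β % 3 = i ∧ (1 ≤ α ∨ 19 ≤ β) ∧
    ∀ v : Fin 60, v ∈ D ↔ ((v : ℕ) = 40 + i ∨ (v : ℕ) = 39 ∨ (v : ℕ) = α ∨ (v : ℕ) = β)

lemma tr {i : ℕ} (hi : i < 3) (v : ℕ) (hv : v < 60) (w : ℕ) (hw : w < 39) :
    nb (40 + i) w = false ∧ (nb v (40 + (i + 1) % 3) = true → v = 39 ∨ (40 ≤ v ∧ v ≠ 40 + i)) ∧
    (nb v w = true → v % 3 = i → w % 3 = (i + 1) % 3 →
      (v ≤ 17 → w = (v + 1) % 18) ∧ (18 ≤ v ∧ v ≤ 38 → w = 18 + (v + 4) % 21)) := by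
  have := allB_sound (allB_sound (allB_sound trans1 i hi) v hv) w hw
  simp only [an_iff, im_iff, orr_iff, Bool.not_eq_true', Nat.beq_eq, Nat.ble_eq] at this
  exact ⟨this.1, fun h => (this.2.1 h).imp id fun h => ⟨h.1, Nat.ne_of_beq_eq_false h.2⟩,
    this.2.2⟩

lemma classify {D : Finset (Fin 60)} (hc : D.card ≤ 4) {i : ℕ} (hi : i < 3) (hu : V (40 + i) ∈ D)
    (hd : ∀ a : Fin 60, ∃ v ∈ D, nb v a = true) : ∃ α β, Ph D i α β := by
  obtain ⟨x1, hx1, hn⟩ := hd (V (40 + (i + 1) % 3))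
  rw [V_val (by omega)] at hn
  have hu' : (V (40 + i) : ℕ) = 40 + i := V_val (by omega)
  have hne : x1 ≠ V (40 + i) := by
    rintro rfl
    have := (tr hi _ (V (40 + i)).2 0 (by norm_num)).2.1 hn
    omega
  obtain ⟨x2, x3, h1, h2, h3⟩ := two (s := (D.erase (V (40 + i))).erase x1) (by
    rw [Finset.card_erase_of_mem (Finset.mem_erase.mpr ⟨hne, hx1⟩), Finset.card_erase_of_mem hu]
    omega) x1
  have hx2 : x2 ∈ D := h2.elim (fun h => Finset.mem_of_mem_erase (Finset.mem_of_mem_erase h))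
    fun h => h ▸ hx1
  have hx3 : x3 ∈ D := h3.elim (fun h => Finset.mem_of_mem_erase (Finset.mem_of_mem_erase h))
    fun h => h ▸ hx1
  have hmem : ∀ v : Fin 60, v ∈ D ↔ ((v : ℕ) = 40 + i ∨ v = x1 ∨ v = x2 ∨ v = x3) := by
    intro v
    constructor
    · intro hv
      by_cases e1 : v = V (40 + i)
      · exact Or.inl (e1 ▸ hu')
      by_cases e2 : v = x1
      · exact Or.inr (Or.inl e2)
      exact Or.inr (Or.inr (h1 v (Finset.mem_erase.mpr ⟨e2, Finset.mem_erase.mpr ⟨e1, hv⟩⟩)))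
    · rintro (e | rfl | rfl | rfl)
      · rwa [show v = V (40 + i) from Fin.ext (e.trans hu'.symm)]
      exacts [hx1, hx2, hx3]
  have h := im_iff.mp (allB_sound (allB_sound cls_ok i hi) x1 x1.2) hn
  have h := allB_sound h x2 x2.2
  rw [force_eq] at h
  have h := im_iff.mp (allB_sound h x3 x3.2) (by
    rw [Nat.beq_eq]
    apply Nat.eq_of_testBit_eq
    intro j
    change (row (40 + i) ||| row x1 ||| row x2 ||| row x3).testBit j = (2 ^ 60 - 1).testBit j
    rw [Nat.testBit_two_pow_sub_one]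
    simp only [Nat.testBit_or]
    by_cases hj : j < 60
    · simp only [testBit_row _ _ hj, hj, decide_true, Bool.or_eq_true]
      obtain ⟨v, hv, hvn⟩ := hd ⟨j, hj⟩
      rcases (hmem v).mp hv with e | rfl | rfl | rfl
      · rw [e] at hvn; tauto
      all_goals tauto
    · have : ∀ x, (row x).testBit j = false := fun x =>
        Nat.testBit_lt_two_pow (lt_of_lt_of_le (Nat.mod_lt _ (Nat.two_pow_pos 60) : row x < 2 ^ 60)
          (Nat.pow_le_pow_right (by norm_num) (show 60 ≤ j by omega) : 2 ^ 60 ≤ 2 ^ j))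
      simp [this, hj])
  simp only [an_iff, orr_iff, good, Nat.beq_eq, Nat.ble_eq] at h
  obtain ⟨e, h | h⟩ := h
  · refine ⟨x2, x3, h.1, h.2.1, h.2.2.1, h.2.2.2.1, h.2.2.2.2.1, h.2.2.2.2.2, fun v => ?_⟩
    rw [hmem, ← e]; simp only [Fin.ext_iff]
  · refine ⟨x3, x2, h.1, h.2.1, h.2.2.1, h.2.2.2.1, h.2.2.2.2.1, h.2.2.2.2.2, fun v => ?_⟩
    rw [hmem, ← e]; simp only [Fin.ext_iff]; tauto

lemma advance {D D' : Finset (Fin 60)} {i α β α' β' : ℕ} (hi : i < 3) (h : Ph D i α β)
    (h' : Ph D' ((i + 1) % 3) α' β') (hm : Move G D D') :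
    α' = (α + 1) % 18 ∧ β' = 18 + (β + 4) % 21 := by
  obtain ⟨f, hf, rfl, hn⟩ := hm
  obtain ⟨a1, a2, a3, a4, a5, -, hD⟩ := h
  obtain ⟨b1, b2, b3, b4, b5, -, hD'⟩ := h'
  have pre : ∀ w : ℕ, w < 60 → (w = 40 + (i + 1) % 3 ∨ w = α' ∨ w = β') →
      ∃ v ∈ D, (f v : ℕ) = w ∧ nb v w = true := by
    intro w hw h
    obtain ⟨v, hv, e⟩ := Finset.mem_image.mp ((hD' ⟨w, hw⟩).mpr (by tauto))
    refine ⟨v, hv, by rw [e], ?_⟩
    have := step_iff.mp (hn v hv)
    rwa [e] at this
  obtain ⟨v0, hv0, e0, n0⟩ := pre (40 + (i + 1) % 3) (by omega) (Or.inl rfl)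
  have c0 : (v0 : ℕ) = 39 := by
    have := (tr hi v0 v0.2 0 (by norm_num)).2.1 n0
    have := (hD v0).mp hv0
    omega
  have key : ∀ w, w < 39 → w % 3 = (i + 1) % 3 → (w = α' ∨ w = β') →
      w = (α + 1) % 18 ∨ w = 18 + (β + 4) % 21 := by
    intro w hw hw3 h
    obtain ⟨v, hv, e, n⟩ := pre w (by omega) (Or.inr h)
    obtain ⟨t1, -, t3⟩ := tr hi v v.2 w hw
    rcases (hD v).mp hv with c | c | c | c
    · rw [c, t1] at n; exact absurd n (by simp)
    · have : v = v0 := Fin.ext (c.trans c0.symm)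
      subst this
      omega
    · rw [c] at t3 n
      exact Or.inl ((t3 n a4 hw3).1 a1)
    · rw [c] at t3 n
      exact Or.inr ((t3 n a5 hw3).2 ⟨a2, a3⟩)
  have := key α' (by omega) b4 (Or.inl rfl)
  have := key β' (by omega) b5 (Or.inr rfl)
  omega

lemma not_eternal {C : Finset (Fin 60)} (h : Eternal G C) : 5 ≤ C.card := by
  by_contra hc
  obtain ⟨F, hC, hF⟩ := h
  have card_eq : ∀ {D D' : Finset (Fin 60)}, Move G D D' → D'.card = D.card := by
    rintro D _ ⟨f, hf, rfl, -⟩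
    exact Finset.card_image_of_injOn hf
  have att : ∀ D ∈ F, D.card ≤ 4 → ∀ i, i < 3 →
      ∃ D' ∈ F, D'.card ≤ 4 ∧ Move G D D' ∧ ∃ α β, Ph D' i α β := by
    intro D hD h4 i hi
    obtain ⟨D', hD', hm, hu⟩ := hF D hD (V (40 + i))
    have h4' : D'.card ≤ 4 := card_eq hm ▸ h4
    refine ⟨D', hD', h4', hm, classify h4' hi hu fun a => ?_⟩
    obtain ⟨_, -, ⟨f, -, rfl, hn⟩, ha⟩ := hF D' hD' a
    obtain ⟨v, hv, rfl⟩ := Finset.mem_image.mp ha
    exact ⟨v, hv, step_iff.mp (hn v hv)⟩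
  obtain ⟨D0, hD0, h40, -, α, β, hP⟩ := att C hC (by omega) 0 (by norm_num)
  have run : ∀ t : ℕ, ∃ D ∈ F, D.card ≤ 4 ∧ Ph D (t % 3) ((α + t) % 18) (18 + (β + 3 + t) % 21) := by
    intro t
    induction t with
    | zero =>
      refine ⟨D0, hD0, h40, ?_⟩
      have h1 := hP.1
      have h2 := hP.2.1
      have h3 := hP.2.2.1
      rwa [show (α + 0) % 18 = α by omega, show 18 + (β + 3 + 0) % 21 = β by omega]
    | succ t ih =>
      obtain ⟨D, hD, h4, hp⟩ := ih
      obtain ⟨D', hD', h4', hm, α', β', hp'⟩ := att D hD h4 ((t % 3 + 1) % 3) (by omega)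
      obtain ⟨e1, e2⟩ := advance (by omega) hp hp' hm
      refine ⟨D', hD', h4', ?_⟩
      rwa [show (t + 1) % 3 = (t % 3 + 1) % 3 by omega, show (α + (t + 1)) % 18 = α' by omega,
        show 18 + (β + 3 + (t + 1)) % 21 = β' by omega]
  obtain ⟨t, h1, h2⟩ : ∃ t, (α + t) % 18 = 0 ∧ (β + 3 + t) % 21 = 0 := by
    have h1 := hP.1
    have h2 := hP.2.2.1
    have h3 := hP.2.2.2.1
    have h4 := hP.2.2.2.2.1
    exact ⟨126 - α + 18 * ((β + 3 + 126 - α) / 3), by omega, by omega⟩
  obtain ⟨D, -, -, hp⟩ := run t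
  have := hp.2.2.2.2.2.1
  omega

/-- A graph on `n` vertices (here `n = 60`) and a configuration of at most `γ - 1` guards from
which the defender survives the first `n` attacks. -/
theorem result : ∃ (n : ℕ) (G : SimpleGraph (Fin n)) (C : Finset (Fin n)),
    C.card + 1 ≤ gammaInf G ∧ Survives G n C := by
  refine ⟨60, G, cfg 40 63, ?_, surv 60 40 63 (by norm_num) (by norm_num) (by norm_num)
    (by decide +kernel)⟩
  refine le_csInf ⟨_, Finset.univ, ⟨{Finset.univ}, rfl, ?_⟩, rfl⟩ ?_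
  · rintro _ rfl a
    exact ⟨_, rfl, move_refl _, Finset.mem_univ _⟩
  · rintro _ ⟨C, hC, rfl⟩
    have h1 := not_eternal hC
    have h2 : (cfg 40 63).card ≤ 4 := Finset.card_le_four
    omega

end Pool.Agent.Results.MP_18a4fa_co.LongGame
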